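import Pool.Agent.H48.OR.Main

/-!
# On-line Ramsey numbers of cliques: Q1 holds with exponential saving on a set of lower density at least 1/10

`H48.OR.onlineRamsey t` and `H48.OR.ramsey t` (file `Pool/Agent/H48/OR/Defs.lean`) are literally the two quantities of
the frozen statement `S10087`.
-/

namespace Pool.Agent.Results.MP_8e62ee_co.PositiveDensity

open H48.OR

theorem result :
    (∀ᶠ t : ℕ in Filter.atTop,
      (onlineRamsey t : ℝ) ≤ ((ramsey (t - (t / 10 + 1))).choose 2 : ℕ) +
        (2 : ℝ) ^ (-(t : ℝ) / 100) * ((ramsey t).choose 2 : ℕ)) ∧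
    (∀ᶠ T : ℕ in Filter.atTop, (T : ℝ) / 10 ≤
      (((Finset.range (T + 1)).filter
        (fun t : ℕ => (onlineRamsey t : ℝ) ≤
          (2 : ℝ) ^ (-(t : ℝ) / 1000) * ((ramsey t).choose 2 : ℕ))).card : ℝ)) :=
  ⟨upper_main, positive_density⟩

end Pool.Agent.Results.MP_8e62ee_co.PositiveDensity
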